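import Pool.Agent.TH629.BC.Inv

/-!
# Bloch's conjecture for correspondences on surfaces and involutions

`𝒱` is a class of smooth projective geometrically irreducible varieties over the field `k` closed
under products (for the problem: all smooth projective varieties over `k = ℂ`), `C` the Chow groups
with rational coefficients (in the form of their formal properties, `IsChowProj`), `H` the
cohomology with complex coefficients (`IsWeilProj`) and `D` its Hodge structures (`HodgeData`).
`HasSurfaceTheory D` records the classical facts which are used: the usual properties of the Hodge
structures with the theorem of Lefschetz on `(1,1)`-classes; the projector onto the transcendental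
part of the motive of a surface (`IsTranscendental`; Murre; Kahn, Murre and Pedrini); and the
existence of two-dimensional complete intersections `U` in the product of two surfaces
(`HasSections`; theorem of Bertini). `HasSymmetricSections C` is the variant for `S × S` and complete
intersections which are invariant under the exchange of the two factors.

Theorem. The following statements are equivalent.
(1) Bloch's conjecture (for all correspondences `Z ∈ CH^2(S × T)` between surfaces with `[Z]^* = 0`
on `H^{2,0}(T)`).
(2) On the kernels of the Albanese maps, homologically trivial correspondences of surfaces commute
with involutions.
(3) Homologically trivial correspondences map the cycles in these kernels which are invariant under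
an involution to invariant cycles.
(4) For all morphisms `f : U → S` of surfaces, homologically trivial correspondences of `U` map the
pull-back of the kernel of the Albanese map of `S` into itself.
(5) Homologically trivial `Z ∈ CH^2(U × U)` which are symmetric and anticommute with an involution
of `U` act as zero on the kernel of the Albanese map of `U`.
(6) The same for the antisymmetric ones.

Proof. Let `U ⊂ S × S` be the intersection of two general divisors in the class `h × S + S × h`
which are invariant under the exchange `τ` of the factors, with the projections `f` and `g = f τ` to
`S`. Then `f_* f^*` and `g_* g^*` are multiplications by `h^2`, and `f_* g^*` and `g_* f^*` are zero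
on the kernel `T(S)` of the Albanese map. Let `W` be a homologically trivial correspondence on `S`
and `Λ = g^* W f_*`. Then `Λ f^* x` is a non-zero multiple of `g^* W x`, and `Λ g^* x = 0`, for
`x ∈ T(S)`. If `Λ` commutes with `τ`, or maps the invariant cycle `f^* x + g^* x` to an invariant
cycle, or maps `f^* x` to `f^* T(S)`, then `W x = 0`. The correspondence `Λ - τ Λ τ` anticommutes with
`τ`, is symmetric if `W` is antisymmetric and antisymmetric if `W` is symmetric, and maps `f^* x` to
a multiple of `g^* W x`. Finally Bloch's conjecture follows from the vanishing for the homologically
trivial `W` which are symmetric, and also from the vanishing for the antisymmetric ones (which means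
that `W` and its transpose act in the same way; see the results on polynomial identities).
-/

open CategoryTheory AlgebraicGeometry

set_option autoImplicit false

universe u v

namespace Pool.Agent.Results.MP_31564d_ag.Involutions

open Pool.Agent.H914 Pool.Agent.W492.BB Pool.Agent.TH133 Pool.Agent.TH629.BC

/-- The equivalence of Bloch's conjecture for correspondences between surfaces
(`BlochSurfaces D`) with five statements on homologically trivial correspondences and involutions
or morphisms. -/
theorem result {k : Type u} [Field k] {𝒱 : VarClass k} (C : TheoryData.{u, v, 0} 𝒱 ℚ)
    [IsChowProj C] (H : WeilTheoryData.{u, v, 0} C ℂ) [IsWeilProj H] (D : HodgeData H)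
    (hD : HasSurfaceTheory D) (hI : HasSymmetricSections C) :
    List.TFAE [BlochSurfaces D, CommuteWithInvolutions H, PreserveInvariants H,
      PreservePullbacks H, VanishFor H (IsSkew C 1), VanishFor H (IsSkew C (-1))] :=
  bloch_inv_tfae hD hI

end Pool.Agent.Results.MP_31564d_ag.Involutions
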