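import Pool.Agent.TH629.BC.PI

/-!
# Bloch's conjecture for correspondences on surfaces and polynomial identities

`𝒱` is a class of smooth projective geometrically irreducible varieties over the field `k` closed
under products (for the problem: all smooth projective varieties over `k = ℂ`), `C` the Chow groups
with rational coefficients (in the form of their formal properties, `IsChowProj`), `H` the
cohomology with complex coefficients (`IsWeilProj`) and `D` its Hodge structures (`HodgeData`).
`HasSurfaceTheory D` records the classical facts which are used: the usual properties of the Hodge
structures with the theorem of Lefschetz on `(1,1)`-classes; the projector onto the transcendental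
part of the motive of a surface (`IsTranscendental`; Murre; Kahn, Murre and Pedrini); and the
existence of two-dimensional complete intersections `U` in the product of two surfaces
(`HasSections`; theorem of Bertini).

A polynomial `p` is a linear combination of words in the variables `z_i`, `y_j` and in their
transposes. It is an identity for correspondences on surfaces (`IsIdentity`) if `p(Z, P)` acts as
zero on the kernel of the Albanese map of `U` for all surfaces `U`, all homologically trivial
`Z_i ∈ CH^2(U × U)` and all `P_j ∈ CH^2(U × U)`. Its order (`HasOrder`) is the smallest number of
letters `z_i`, transposed or not, in a word which occurs in `p`.

Theorem. Bloch's conjecture (for all correspondences `Z ∈ CH^2(S × T)` between surfaces with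
`[Z]^* = 0` on `H^{2,0}(T)`) is equivalent to each single polynomial identity of order one. For
example it holds if and only if homologically trivial correspondences commute with all
correspondences on the kernel of the Albanese map; if and only if the iterated commutators
`[[Z, P_1], P_2]` act as zero; if and only if `Z` and the transpose of `Z` act in the same way. For
an arbitrary order `e` the identity holds if and only if the products of `e` homologically trivial
correspondences of a surface act as zero. So homologically trivial correspondences of surfaces
commute with each other on the kernels of the Albanese maps if and only if all products of two of
them act as zero, and if they are nilpotent of index at most `e` for all surfaces then all products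
of `e` of them act as zero.

Proof. Iterating the construction of complete intersections one finds for each surface `S` and each
`N` a surface `U` and morphisms `f_0, …, f_N : U → S` such that `f_{i*} f_j^*` acts on the kernel of
the Albanese map of `S` as zero for `i ≠ j` and as a non-zero multiple of the identity for `i = j`.
The correspondences `f_{j}^* ∘ W ∘ f_{i*}` on `U`, with `W` a correspondence on `S`, behave as
elementary matrices. Let `w = v_1 … v_N` be a word of `p`. Replacing `p` by a homogeneous component
one may assume that all words have `N` letters. Substitute for each variable the sum of the
`f_{i}^* ∘ W_i ∘ f_{i-1*}` over the `i` for which `v_i` is the variable, and of their transposes for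
the `i` for which `v_i` is its transpose. The value of `p` maps `f_0^* x` to the sum of
`a f_N^* W_N … W_1 x`, `a` a non-zero rational number, and of terms in the span of the images of the
other `f_i^*`.
-/

open CategoryTheory AlgebraicGeometry

set_option autoImplicit false

universe u v

namespace Pool.Agent.Results.MP_31564d_ag.PolynomialIdentities

open Pool.Agent.H914 Pool.Agent.W492.BB Pool.Agent.TH133 Pool.Agent.TH629.BC

/-- Bloch's conjecture for correspondences between surfaces (`BlochSurfaces D`) is equivalent to
each polynomial identity of order one; and each polynomial identity of order `e` is equivalent to
the vanishing of the action of all products of `e` homologically trivial correspondences of a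
surface on the kernel of its Albanese map. -/
theorem result {k : Type u} [Field k] {𝒱 : VarClass k} (C : TheoryData.{u, v, 0} 𝒱 ℚ)
    [IsChowProj C] (H : WeilTheoryData.{u, v, 0} C ℂ) [IsWeilProj H] (D : HodgeData H)
    (hD : HasSurfaceTheory D) (ι κ : Type) (p : List ((ι ⊕ κ) × Bool) →₀ ℚ) :
    (HasOrder p 1 → (BlochSurfaces D ↔ IsIdentity H p)) ∧
      ∀ e : ℕ, HasOrder p e → (IsIdentity H p ↔ ProductsVanish H e) :=
  ⟨fun hp => bloch_iff_identity hD hp, fun _ hp => identity_iff hD hp⟩

end Pool.Agent.Results.MP_31564d_ag.PolynomialIdentities
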